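import Pool.Agent.Zk34.IT.Final

/-!
# Almost all `p`-groups of class two are identified by the Weisfeiler-Leman method of dimension 27

Isomorphism of groups given by multiplication tables reduces to graph isomorphism by the Latin
square graph of the table. The bottleneck are the `p`-groups of class two, which are believed to be
almost all finite groups: the `2`-groups with elementary abelian central Frattini subgroup, and for
odd `p` the groups of exponent `p` and class at most two. In the worst case the Weisfeiler-Leman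
method needs dimension of order `log n` for such groups of order `n`
(`MP_f1a348_lc.GroupWLDimension`, `MP_f1a348_lc.TwoGroups`).

Here: for every prime `p` (also `p = 2`) and all `r ≥ 10000`, for all isomorphism types of such
groups of order `p ^ r`, with the exception of at most a fraction `p ^ (-(r / 4))` of the types,
the `27`-dimensional Weisfeiler-Leman method distinguishes the Latin square graph of the group from
every graph that is not isomorphic to it.

Proof idea.
* `Zk34.AA`: for almost all bilinear maps `B` the group with the underlying set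
  `F_p ^ d × F_p ^ e` and the product `(x, z) (y, w) = (x + y, z + w + B x y)` is identified, if
  `d ≤ 2 e ≤ d + 6` (and `d < 2 e` if `p = 2`).
* `Zk34.IT`: every group of the family has this form, and the isomorphism types with given `d`,
  `e` are the orbits of `GL_d × GL_e` on the pairs (commutator map, power map). For
  `d / 3 ≤ e ≤ 2 d / 3` almost all such pairs have only the scalars as stabilizer, even on average
  (Burnside's lemma and a bound for the number of pairs fixed by a given non-scalar element), so
  almost all types are identified. The types with `d`, `e` outside the window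
  `d ≤ 2 e ≤ d + 6` are few by a comparison of the numbers of orbits.
-/

set_option autoImplicit false

namespace Pool.Agent.Results.MP_f1a348_lc.AlmostAllPGroups

open Pool.Agent.W185.SRG Pool.Agent.W185.LSQ Pool.Agent.W879.GW Pool.Agent.Zk34.AA
open Pool.Agent.Zk34.IT

/-- Commutators and `p`-th powers are central, `a ^ (p ^ 2) = 1`, and `a ^ p = 1` if `p` is odd:
for `p`-groups with odd `p` this says that the exponent divides `p` and the class is at most two,
for `2`-groups it says that the Frattini subgroup is central and elementary abelian. -/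
def TwoStep (p : ℕ) (G : Type) [Group G] : Prop :=
  (∀ a b c : G, (a * b * a⁻¹ * b⁻¹) * c = c * (a * b * a⁻¹ * b⁻¹)) ∧
  (∀ a b : G, a ^ p * b = b * a ^ p) ∧ (∀ a : G, a ^ (p * p) = 1) ∧
  (p ≠ 2 → ∀ a : G, a ^ p = 1)

/-- The groups on the set `{0, ..., n - 1}` with the property `TwoStep p`. -/
def Grp (p n : ℕ) : Type := {g : Group (Fin n) // @TwoStep p (Fin n) g}

/-- The product of a group on `{0, ..., n - 1}`. -/
def prod {p n : ℕ} (g : Grp p n) (a b : Fin n) : Fin n := g.1.mul a b

/-- Isomorphism of groups on `{0, ..., n - 1}`. -/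
def Iso {p n : ℕ} (g h : Grp p n) : Prop :=
  ∃ f : Fin n ≃ Fin n, ∀ a b, f (prod g a b) = prod h (f a) (f b)

/-- Isomorphism is an equivalence relation. -/
def isoSetoid (p n : ℕ) : Setoid (Grp p n) where
  r := Iso
  iseqv :=
    { refl := fun _ => ⟨Equiv.refl _, fun _ _ => rfl⟩
      symm := by
        rintro g h ⟨f, hf⟩
        refine ⟨f.symm, fun a b => ?_⟩
        rw [Equiv.symm_apply_eq, hf, Equiv.apply_symm_apply, Equiv.apply_symm_apply]
      trans := by
        rintro g h k ⟨f, hf⟩ ⟨f', hf'⟩
        refine ⟨f.trans f', fun a b => ?_⟩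
        rw [Equiv.trans_apply, hf, hf']
        rfl }

/-- The isomorphism types of groups of order `n` with the property `TwoStep p`. -/
def Types (p n : ℕ) : Type := Quotient (isoSetoid p n)

/-- The `k`-dimensional Weisfeiler-Leman method distinguishes `G` from every graph that is not
isomorphic to `G`. -/
def IdentifiedBy (k : ℕ) {V : Type} [Fintype V] (G : SimpleGraph V) : Prop :=
  ∀ (W : Type) [Fintype W] (H : SimpleGraph W), WLEquivalent k G H → Nonempty (G ≃g H)

/-- The isomorphism types that contain a group whose Latin square graph is not identified by the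
`k`-dimensional Weisfeiler-Leman method. -/
def Unidentified (k p n : ℕ) : Type :=
  {c : Types p n // ∃ g : Grp p n, Quotient.mk (isoSetoid p n) g = c ∧
    ¬ IdentifiedBy k (latinGraph (prod g))}

theorem fam_iff {p : ℕ} {G : Type} [Group G] : TwoStep p G ↔ Fam p G :=
  ⟨fun h => ⟨h.1, h.2.1, h.2.2.1, h.2.2.2⟩, fun h => ⟨h.comm, h.pow, h.exp, h.odd⟩⟩

/-- The underlying set of a group on `{0, ..., n - 1}`. -/
def El {p n : ℕ} (_ : Grp p n) : Type := Fin n

instance {p n : ℕ} (g : Grp p n) : Group (El g) := g.1

instance {p n : ℕ} (g : Grp p n) : Fintype (El g) := inferInstanceAs (Fintype (Fin n))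

/-- The set `{0, ..., n - 1}`. -/
def FF (n : ℕ) : Type := Fin n

theorem fam_of_iso {p : ℕ} {A B : Type} [Group A] [Group B] (φ : B ≃* A) (hF : Fam p A) :
    Fam p B where
  comm a b c := by
    apply φ.injective
    simp only [map_mul, map_inv]
    exact hF.comm _ _ _
  pow a b := by
    apply φ.injective
    simp only [map_mul, map_pow]
    exact hF.pow _ _
  exp a := by
    apply φ.injective
    simp only [map_pow, map_one]
    exact hF.exp _
  odd h2 a := by
    apply φ.injective
    simp only [map_pow, map_one]
    exact hF.odd h2 _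

theorem iso_iff {p n : ℕ} (g h : Grp p n) : Quotient.mk (isoSetoid p n) g =
    Quotient.mk (isoSetoid p n) h ↔ Nonempty (El g ≃* El h) := by
  refine Iff.trans (@Quotient.eq _ (isoSetoid p n) _ _) ?_
  constructor
  · rintro ⟨f, hf⟩
    exact ⟨{ toEquiv := (f : El g ≃ El h), map_mul' := hf }⟩
  · rintro ⟨f⟩
    exact ⟨f.toEquiv, f.map_mul'⟩

/-- Every group of order `n` is isomorphic to a group on `{0, ..., n - 1}`. -/
theorem exists_copy {p n : ℕ} (H : Type) [Group H] (hF : Fam p H) (hn : Nat.card H = n)
    (hn0 : n ≠ 0) : ∃ g : Grp p n, Nonempty (H ≃* El g) := by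
  have hfin : Finite H := Nat.finite_of_card_ne_zero (by rw [hn]; exact hn0)
  let f : FF n ≃ H := (Finite.equivFinOfCardEq hn).symm
  let iG : Group (FF n) := @Equiv.group (FF n) H f _
  let φ : FF n ≃* H := @Equiv.mulEquiv (FF n) H f _
  have h1 : @Fam p (FF n) iG := @fam_of_iso p H (FF n) _ iG φ hF
  exact ⟨⟨iG, (@fam_iff p (FF n) iG).2 h1⟩, ⟨φ.symm⟩⟩

theorem finite_types (p n : ℕ) : Finite (Types p n) := by
  have h1 : Finite (Grp p n) := by
    refine Finite.of_injective (fun g : Grp p n => prod g) ?_
    intro g h hgh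
    refine Subtype.ext (Group.ext ?_)
    exact hgh
  exact Quotient.finite _

theorem result (p r : ℕ) [Fact p.Prime] (hr : 10000 ≤ r) :
    Nat.card (Unidentified 27 p (p ^ r)) * p ^ (r / 4) ≤ Nat.card (Types p (p ^ r)) ∧
      0 < Nat.card (Types p (p ^ r)) := by
  classical
  have hp := (Fact.out : p.Prime)
  obtain ⟨n, hn⟩ : ∃ n, n = p ^ r := ⟨_, rfl⟩
  have hn0 : n ≠ 0 := by
    rw [hn]
    exact (Nat.pow_pos hp.pos).ne'
  rw [← hn]
  have hfT : Finite (Types p n) := finite_types p n
  -- the group on `{0, ..., n - 1}` of a bilinear map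
  have hcopy : ∀ (d e : ℕ) (B : BM p d e), d + e = r → ∃ g : Grp p n,
      Nonempty (GE (toBil B) ≃* El g) := fun d e B hde =>
    exists_copy (GE (toBil B)) (fam_GE B) (by rw [card_GEB, hde, hn]) hn0
  choose gB hgB using hcopy
  -- the type of an orbit
  have hor : ∀ x : (Σ e : Fin (r + 1),
      Orb (inv_bad (p := p) (k := 27) (V := Vc p (r - e)) (Z := Vc p e))),
      ∃ (B : BM p (r - x.1) x.1) (hB : Bad 27 B), orb inv_bad B hB = x.2 :=
    fun x => orb_surj x.2
  choose Bo hBo hBo' using hor
  refine ⟨sum_types (p := p) hr ?_ ?_, ?_⟩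
  · -- the unidentified types
    have h1 : ∀ c : Unidentified 27 p n, ∃ x : (Σ e : Fin (r + 1),
        Orb (inv_bad (p := p) (k := 27) (V := Vc p (r - e)) (Z := Vc p e))),
        Quotient.mk (isoSetoid p n) (gB (r - x.1) x.1 (Bo x) (by omega)) = c.1 := by
      rintro ⟨c, g, rfl, hg⟩
      obtain ⟨e, B, hB, ⟨ψ⟩⟩ := classify' (p := p) (H := El g) (r := r) (fam_iff.1 g.2)
        (by
          rw [← hn]
          exact Nat.card_fin n)
      have hbad : Bad 27 B := by
        refine ⟨hB, fun h2 => hg ?_⟩
        exact idn_iso ψ h2 (inferInstanceAs (Fintype (Fin n)))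
      refine ⟨⟨e, orb inv_bad B hbad⟩, ?_⟩
      have h3 := hBo' ⟨e, orb inv_bad B hbad⟩
      obtain ⟨γ, hγ⟩ := orb_eq.1 h3
      obtain ⟨φ⟩ := iso_of_smul γ hγ
      obtain ⟨χ⟩ := hgB (r - e) e (Bo ⟨e, orb inv_bad B hbad⟩) (by omega)
      show _ = Quotient.mk (isoSetoid p n) g
      rw [iso_iff]
      exact ⟨(χ.symm.trans φ).trans ψ⟩
    choose f hf using h1
    refine Nat.card_le_card_of_injective f ?_
    intro c c' hcc
    refine Subtype.ext ?_
    rw [← hf c, ← hf c', hcc]
  · -- many types
    intro D E hDE
    have h1 : ∀ o : Orb (inv_full (p := p) (V := Vc p D) (Z := Vc p E)), ∃ (B : BM p D E)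
      (hB : Full B), orb inv_full B hB = o := fun o => orb_surj o
    choose B hB hBo using h1
    refine Nat.card_le_card_of_injective
      (fun o => Quotient.mk (isoSetoid p n) (gB D E (B o) hDE)) ?_
    intro o o' hoo
    have h2 : Quotient.mk (isoSetoid p n) (gB D E (B o) hDE) =
      Quotient.mk (isoSetoid p n) (gB D E (B o') hDE) := hoo
    rw [iso_iff] at h2
    obtain ⟨ψ⟩ := h2
    obtain ⟨χ⟩ := hgB D E (B o) hDE
    obtain ⟨χ'⟩ := hgB D E (B o') hDE
    obtain ⟨γ, hγ⟩ := smul_of_iso (hB o) ((χ.trans ψ).trans χ'.symm)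
    rw [← hBo o, ← hBo o']
    exact orb_eq.2 ⟨γ, hγ⟩
  · have : Nonempty (Types p n) := ⟨Quotient.mk _ (gB r 0 0 (by omega))⟩
    exact Nat.card_pos

end Pool.Agent.Results.MP_f1a348_lc.AlmostAllPGroups
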