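import Pool.Agent.Zk82.SA.Main
import Pool.Agent.Zk82.SA.Lower

/-!
# Colour refinement and independent noise of any shape

Smoothed analysis of graph isomorphism. Every pair `e` of the `n` vertices is an edge with an
arbitrary probability `p e`, independently of the other pairs; the probabilities may be different
for different pairs, and `0` or `1` for most of them. In other words, an arbitrary fixed graph is
changed at random, the pair `e` with probability `min (p e) (1 - p e)`. Suppose that at every vertex
the expected number of changes is at least `D`. Then, with probability at least
`1 - n ^ 3 * exp (- c D)`, colour refinement (the simplest combinatorial method) gives different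
colours to all vertices and distinguishes the random graph from all graphs which are not isomorphic
to it. So noise with `C log n` expected changes at every vertex makes every graph easy, wherever the
noise is. For example the random graph may be a random spanning subgraph of any graph with minimum
degree at least `C log n`. The order `log n` is optimal: for some noise with `(log n) / 2 - 1`
expected changes at every vertex colour refinement never succeeds.

For uniform noise (all pairs are changed with the same probability `C log n / n`) this is a theorem
of Anastos, Kwan and Moore; for noise on all pairs, with probabilities in `[δ, 1 - δ]`, a starting
file (`MP_128e7d_lc.RobustWLIdentification`) has more precise results.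

Proof. A pair `e` is a fair coin with probability `2 min (p e) (1 - p e)` and fixed otherwise, so
that one can suppose that the random edges are a uniformly random subset of a set `J` of pairs, and
that every vertex `v` is in at least `D` pairs of `J`; let `N v` be a set of `D` vertices which form
a pair of `J` with `v`.

(1) With high probability every set `N v` contains at least `D / 2` vertices which differ in colour
after two rounds (in the numbers of neighbours of each degree). Otherwise there are `r` disjoint
pairs `a j`, `b j` in `N v` with the same colours, `r = D / (1024 k)` where `D = 2 ^ k`. For given
pairs choose disjoint sets `T j` of `64 k` vertices (columns) with `a j x` in `J` for `x` in `T j`.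
The degrees of the columns without these coins are spread by the other coins, and few degrees are
repeated in the same set `T j`. Put the degrees `2 i` and `2 i + 1`, or `2 i - 1` and `2 i`, into one
block; for one of the two choices, at least half of the columns do not change the block when their
coin is thrown. So all blocks are known before these coins are thrown, and the coins of at least
`16 k r` columns are determined by the conditions that the pairs have the same colours, if the
degrees of the vertices `a j` are given. This beats the number of the pairs.

(2) For an equitable partition in which `s` vertices are not representatives of their classes, and
such that each `N v` meets at least `D / 2` classes, a proportion of `2 ^ (- s D / 54)` of the sets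
of edges is compatible with the partition: with a colouring of the vertices by three colours one
finds a vertex `v`, the representative of its class and a neighbour in `N v` with prescribed
colours, for many `v` and classes, so that the conditions determine different coins. There are at
most `n ^ (2 s)` such partitions.
-/

set_option autoImplicit false

namespace Pool.Agent.Results.MP_f1a348_lc.ArbitraryNoise

open Finset Pool.Agent.Zk82.SA

/-- **Colour refinement succeeds on every graph after independent noise of any shape with `C log n`
expected changes at every vertex**, and this is optimal up to the constant `C`. -/
theorem result :
    (∃ c : ℝ, 0 < c ∧ ∀ (n : ℕ) (p : Sym2 (Fin n) → ℝ), (∀ e, 0 ≤ p e ∧ p e ≤ 1) →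
      ∀ D : ℝ, (∀ v, D ≤ ∑ u ∈ univ.erase v, min (p s(v, u)) (1 - p s(v, u))) →
        graphProb p (fun G => ¬ Canonized G) ≤ n ^ 3 * Real.exp (-(c * D))) ∧
    ∀ n : ℕ, 2 ≤ n → ∃ p : Sym2 (Fin n) → ℝ, (∀ e, 0 ≤ p e ∧ p e ≤ 1) ∧
      (∀ v, Real.log n / 2 - 1 ≤ ∑ u ∈ univ.erase v, min (p s(v, u)) (1 - p s(v, u))) ∧
      graphProb p (fun G => ¬ Canonized G) = 1 := by
  refine ⟨⟨cc, cc_pos, fun n p hp D hD => main p hp D hD _ (fun _ h => h)⟩, fun n hn => ?_⟩
  obtain ⟨p, hp, h1, h2⟩ := lower n hn
  exact ⟨p, hp, h1, h2 _ (fun _ h => h)⟩

end Pool.Agent.Results.MP_f1a348_lc.ArbitraryNoise
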