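import Pool.Agent.Zk82.RC.Asm3
import Pool.Agent.Zk82.RC.Det3
import Pool.Agent.Zk82.RC.Cnt
import Pool.Agent.Zk82.RC.DefP
import Pool.Agent.Zk82.RC.LowT
import Pool.Agent.Zk82.RC.LowC
import Pool.Agent.Zk34.RS.Prob2
import Pool.Agent.Zk34.RS.Wlx
import Pool.Agent.Zk25.RC.Low3

/-!
# How many random vertex colours does the `k`-dimensional Weisfeiler-Leman algorithm need?

Let `G` be an arbitrary graph on `n` vertices and give the vertices independent random colours, where
no colour has probability larger than `1 / q` at any vertex (e.g. uniform colours from a set of `q`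
colours). We determine, for every dimension `k`, the order of the number `q` of colours for which the
`k`-dimensional Weisfeiler-Leman algorithm identifies every graph with high probability:

* colour refinement (`k = 1`): the threshold is `n ^ (2 / 3)`. The probability of identification is
  at least `1 - 3456 n ^ 2 / q ^ 3` for every graph, and at most `exp (- N (N - 1) / (2 q ^ 3))` for
  `N = ⌊n / 3⌋` disjoint triangles.
* `k ≥ 2`: the threshold is `n ^ (1 / ck k)`, where `ck k` is the least number
  (number of vertices) - (number of colours) of a coloured graph which is not identified by the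
  `k`-dimensional algorithm; one has `k + 2 ≤ ck k ≤ C k`. The probability is at least
  `1 - C n / q ^ ck k` for every graph and at most `exp (- ⌊n / C⌋ / (C q ^ ck k))` for some graph.
* uniformly in `k`: the probability is at least `1 - 2 n ^ 2 (4 (k + 2) / q) ^ (k + 2)` for every
  graph and at most `exp (- ⌊n / (C k)⌋ / q ^ (C k))` for some graph. So for
  `q ≥ (log n) ^ (1 + ε)` the Weisfeiler-Leman dimension of every graph drops to `O(log n / log q)`,
  and no smaller order is possible.

All lower bounds for the probabilities hold for all refinements of the random colouring at once (so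
an adversary may split the colours afterwards).

The proof of the upper bounds for the number of colours: for an equitable partition, the closure of a
pair of equivalent vertices is generated by repeatedly adding the vertices which distinguish two
equivalent vertices already found. (PROB2) With high probability all closures have small deficiency
(number of elements - number of classes), because every unit of deficiency costs an equality of
colours and there are few choices for these equalities. (DET3) The default adjacencies between the
classes can be chosen such that the components of the graph of the other pairs are either contained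
in closures with the same classes outside of them, or are unions of classes and closures. (WLX), (CMP)
The `k`-dimensional algorithm identifies the graph if it identifies all components or, for `k = 1`,
if they are also unions of classes or have two vertices. (DEF) Coloured graphs of deficiency less than
`ck k` are identified by definition. (CNT) A component which is not identified is frustrated (the
adjacencies across every cut are not determined by the classes), and the expected number of such
parts with `s` vertices and deficiency at least `d` is at most `C n / q ^ d`.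
-/

set_option autoImplicit false

namespace Pool.Agent.Results.MP_f1a348_lc.RandomVertexColours

open Finset Pool.Agent.W894.FE Pool.Agent.Zk82.RC

theorem result :
    (∀ (n N k : ℕ) (q : ℝ) (G : SimpleGraph (Fin n)) (p : Fin n → Fin N → ℝ),
      1 ≤ n → 1 ≤ k → 0 < q → (∀ v, ∑ x, p v x = 1) → (∀ v x, 0 ≤ p v x ∧ p v x ≤ 1 / q) →
      1 - 2 * n ^ 2 * (4 * (k + 2) / q) ^ (k + 2) ≤
        colProb p (fun c => ∀ c' : Fin n → ℕ, (∀ x y, c' x = c' y → c x = c y) →
          Identified k G c')) ∧
    (∃ C : ℕ, 1 ≤ C ∧ ∀ n k q : ℕ, 1 ≤ k → 1 ≤ q →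
      ∃ G : SimpleGraph (Fin n), colProb (fun _ (_ : Fin q) => 1 / (q : ℝ)) (Identified k G) ≤
        Real.exp (-(((n / (C * k) : ℕ) : ℝ) / (q : ℝ) ^ (C * k)))) ∧
    (∀ n q : ℕ, 1 ≤ q →
      ∃ G : SimpleGraph (Fin n), colProb (fun _ (_ : Fin q) => 1 / (q : ℝ)) (Identified 1 G) ≤
        Real.exp (-(((n / 3 : ℕ) : ℝ) * (((n / 3 : ℕ) : ℝ) - 1) / (2 * q ^ 3)))) ∧
    (∀ k : ℕ, 2 ≤ k → ∃ C : ℕ, 1 ≤ C ∧
      (∀ (n N : ℕ) (q : ℝ) (G : SimpleGraph (Fin n)) (p : Fin n → Fin N → ℝ), 1 ≤ n → 0 < q →
        (∀ v, ∑ x, p v x = 1) → (∀ v x, 0 ≤ p v x ∧ p v x ≤ 1 / q) →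
        1 - C * (n / q ^ ck k) ≤
          colProb p (fun c => ∀ c' : Fin n → ℕ, (∀ x y, c' x = c' y → c x = c y) →
            Identified k G c')) ∧
      ∀ n q : ℕ, 1 ≤ q → ∃ G : SimpleGraph (Fin n),
        colProb (fun _ (_ : Fin q) => 1 / (q : ℝ)) (Identified k G) ≤
          Real.exp (-(((n / C : ℕ) : ℝ) / (C * (q : ℝ) ^ ck k)))) ∧
    ∃ C : ℕ, ∀ k, 1 ≤ k → k + 2 ≤ ck k ∧ ck k ≤ C * k := by
  refine ⟨fun n N k q G p hn hk hq hp hp' => Asm.upper1 Det.det3 Pool.Agent.Zk34.RS.wlx DefP.defS
    Pool.Agent.Zk34.RS.prob2 n N k q G p hn hk hq hp hp', Asm.lower3 Pool.Agent.Zk25.RC.Two.low3,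
    fun n q hq => ?_, fun k hk => Asm.sharp Det.det3 Pool.Agent.Zk34.RS.wlx Pool.Agent.Zk34.RS.cmp
      DefP.defS Pool.Agent.Zk34.RS.prob2 Cnt.prob3 LowC.lowc Pool.Agent.Zk25.RC.Two.low3 k hk, ?_⟩
  · obtain ⟨G, hG⟩ := LowT.lowt n q hq
    exact ⟨G, Asm.lower_of hq G 1 _ hG⟩
  · obtain ⟨-, -, h1, ⟨C, h2⟩, -⟩ := DefP.defS
    exact ⟨C, fun k hk => ⟨h1 k hk, h2 k hk⟩⟩

end Pool.Agent.Results.MP_f1a348_lc.RandomVertexColours
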