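import Pool.Agent.Zk34.TW.Final

/-!
# The Weisfeiler-Leman dimension of graphs of treewidth `w` is at least `3 w / 4 - C`

For graphs of bounded treewidth graph isomorphism is in polynomial time, and the
Weisfeiler-Leman method is the natural generic algorithm. Kiefer and Neuen showed that the
dimension which it needs for graphs of treewidth at most `w` is at most `w` and, by the
construction of Cai, Fürer and Immerman over grids, at least about `w / 2`.

Here: the lower bound is improved from `w / 2` to `3 w / 4`, even for graphs of pathwidth at
most `w`. For all `w` and `k` with `4 k + C ≤ 3 w` there are two non-isomorphic graphs of pathwidth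
at most `w` which the `k`-dimensional Weisfeiler-Leman method does not distinguish.

Proof idea. In the construction of Cai, Fürer and Immerman every edge of a base graph is replaced
by a pair of vertices, a column of a grid with `n` rows gives a separator of `2 n` vertices, and
one pebble blocks a row. We replace every edge by a class of four vertices with the symmetric group
of degree four, and the twist is the parity of a permutation. So three pebbles are needed to block
a row, and a column gives a separator of `4 n` vertices. The parity is recorded by a new gadget of
bounded size: let `D` be the set of the `16` points in the four classes at a gadget. The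
gadget has the vertices `(a, s)` for `a ∈ D` and `s : D → F_2` with `s a = 0` and sum zero, and
`(a, s)`, `(b, s')` are joined according to `s b + s' a = r a b` where `r` is a tournament on `D`
(`r a b + r b a = 1`). Two gadgets are isomorphic over a permutation of `D` if and only if the
parity of the number of pairs on which the tournaments differ agrees with the sign of the
permutation. If at most two of the vertices of a class and its two gadgets carry pebbles, then two
points of the class can be exchanged without moving the pebbles (`Zk34.TW.conn_step`): two
functions `s`, `s'` split the other points of the class only into two parts.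
-/

set_option autoImplicit false

namespace Pool.Agent.Results.MP_f1a348_lc.TreewidthThreeQuarters

open Pool.Agent.W185.SRG

/-- The graph `G` has pathwidth at most `w`: there is a sequence of sets `B 0, ..., B (m - 1)` of
at most `w + 1` vertices such that every vertex is in one of the sets, both ends of every edge are
in a common set, and the sets which contain a given vertex are consecutive. -/
def PathwidthAtMost (w : ℕ) {V : Type} (G : SimpleGraph V) : Prop :=
  ∃ (m : ℕ) (B : Fin m → Finset V), (∀ v, ∃ i, v ∈ B i) ∧
    (∀ u v, G.Adj u v → ∃ i, u ∈ B i ∧ v ∈ B i) ∧
    (∀ v i j l, i ≤ j → j ≤ l → v ∈ B i → v ∈ B l → v ∈ B j) ∧ ∀ i, (B i).card ≤ w + 1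

/-- There is a constant `C` such that for all `w` and `k` with `4 k + C ≤ 3 w` there are two
non-isomorphic graphs of pathwidth at most `w` that are not distinguished by the `k`-dimensional
Weisfeiler-Leman method. -/
theorem result : ∃ C : ℕ, ∀ w k : ℕ, 4 * k + C ≤ 3 * w →
    ∃ (V : Type) (_ : Fintype V) (G H : SimpleGraph V),
      PathwidthAtMost w G ∧ PathwidthAtMost w H ∧ IsEmpty (G ≃g H) ∧ WLEquivalent k G H :=
  Pool.Agent.Zk34.TW.final

end Pool.Agent.Results.MP_f1a348_lc.TreewidthThreeQuarters
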